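import Pool.Agent.Y118.UL.Lit3

/-!
# Families of G-functions: at most `trdeg ℚ(Ω) + 1` exceptional fibres in every window

Near a point `x = 0` of the base the periods of a family over `ℚ(x)` are polynomials in `log x`, in G-functions
`h_1(x), ..., h_r(x)` with rational coefficients and in constants `Ω` (the periods of the limit, or of the fibre at
`0` if it is smooth; then there are no logarithms). We consider the fibres `x = 1 / (t - G u)`, `1 ≤ u ≤ H`, of a
window, where `t ≥ (H + 2)^E`.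

(A) Let the family be connected, and let `f_a(x) = F_a(Ω, log x, h(x))`, for example the entries of the period
matrix. Except for at most `trdeg ℚ(Ω) + 1` fibres of the window (`trdeg ℚ(Ω)` if there are no logarithms) every
polynomial relation of degree `≤ δ` over a number field of degree `≤ D` between the numbers `f_a(s)` is a combination
of specialisations at `s` of functional relations of degree `≤ δ` over `ℚ̄[x]`: the degree-`δ` statement holds at `s`.

(B) The same for relations between the constants `Ω`, further constants `w`, the logarithms and the values of the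
`h_i` for `k` different fibres of the window; for families which are not connected one has to restrict to the
irreducible components.

The bounds for the number of exceptions do not depend on the degrees `δ`, `D`, on `k`, `H` and `t`.
-/

set_option autoImplicit false

open PowerSeries

namespace Pool.Agent.Results.MP_290158_ag.AllFamiliesWindows

/-- an integer polynomial as a power series with rational coefficients -/
noncomputable def toQ (P : Polynomial ℤ) : PowerSeries ℚ := ((P.map (Int.castRingHom ℚ) : Polynomial ℚ) : PowerSeries ℚ)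

/-- the power series `P(u^e)` -/
noncomputable def atPow (e : ℕ) (P : Polynomial ℤ) : PowerSeries ℂ :=
  ((Polynomial.expand ℂ e (P.map (Int.castRingHom ℂ)) : Polynomial ℂ) : PowerSeries ℂ)

/-- the matrices `G_s` over `ℤ[x]` with `T^s y^(s) = G_s y` for all solutions `y` of `T y' = A y` -/
noncomputable def iter {r : ℕ} (T : Polynomial ℤ) (A : Fin r → Fin r → Polynomial ℤ) : ℕ → Fin r → Fin r → Polynomial ℤ
  | 0 => fun i j => if i = j then 1 else 0
  | s + 1 => fun i j => T * Polynomial.derivative (iter T A s i j) + ∑ l, iter T A s i l * A l j -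
      (s : Polynomial ℤ) * (Polynomial.derivative T * iter T A s i j)

/-- The system `T y' = A y` has a fundamental matrix of solutions of the form `u^(-M) ∑_n Φ_n(u) (log u)^n` with
`u^e = x` and convergent power series `Φ_n`: the point `0` is an ordinary point or a regular singularity with rational
exponents. -/
def QuasiUnipotent {r : ℕ} (T : Polynomial ℤ) (A : Fin r → Fin r → Polynomial ℤ) : Prop :=
  ∃ (e M : ℕ) (K : ℝ) (Φ : Matrix (Fin r) (Fin r) (Polynomial (PowerSeries ℂ))), 1 ≤ e ∧ Φ.det ≠ 0 ∧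
    (∀ i j n m, ‖coeff m ((Φ i j).coeff n)‖ ≤ K ^ (m + 1)) ∧
    ∀ i j n, atPow e T * (X * PowerSeries.derivative ℂ ((Φ i j).coeff n) +
        ((n : PowerSeries ℂ) + 1) * (Φ i j).coeff (n + 1) - (M : PowerSeries ℂ) * (Φ i j).coeff n) =
      (e : PowerSeries ℂ) * X ^ e * ∑ l, atPow e (A i l) * (Φ l j).coeff n

/-- `h_1, ..., h_r` are G-functions with rational coefficients which solve the differential system `T y' = A y`, with
the conditions of Siegel and Galochkin, and the system is regular with rational exponents at `0`. -/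
structure GFamily {r : ℕ} (T : Polynomial ℤ) (A : Fin r → Fin r → Polynomial ℤ) (h : Fin r → PowerSeries ℚ) : Prop where
  /-- the denominator is not zero -/
  T_ne : T ≠ 0
  /-- the differential equations -/
  ode : ∀ i, toQ T * PowerSeries.derivative ℚ (h i) = ∑ j, toQ (A i j) * h j
  /-- the coefficients have geometric growth -/
  size : ∃ C : ℝ, ∀ i m, |((coeff m (h i) : ℚ) : ℝ)| ≤ C ^ (m + 1)
  /-- the common denominators of the coefficients have geometric growth -/
  den : ∃ C : ℝ, ∀ m : ℕ, ∃ d : ℕ, 0 < d ∧ (d : ℝ) ≤ C ^ (m + 1) ∧ ∀ i, ∀ j ≤ m, ∃ a : ℤ, (d : ℚ) * coeff j (h i) = a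
  /-- Galochkin's condition: the common denominators of the matrices `G_s / s!` have geometric growth -/
  galochkin : ∃ C : ℝ, ∀ m : ℕ, ∃ d : ℕ, 0 < d ∧ (d : ℝ) ≤ C ^ (m + 1) ∧ ∀ s ≤ m, ∀ i j,
    ∃ H : Polynomial ℤ, (d : Polynomial ℤ) * iter T A s i j = (s.factorial : Polynomial ℤ) * H
  /-- the local exponents at `0` are rational and the singularity is regular -/
  regular : QuasiUnipotent T A

section
variable {r k : ℕ} {υ σ : Type}

/-- The family is connected: every element of the field `ℚ(x, h_1, ..., h_r)` which is algebraic over `ℚ(x)` is in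
`ℚ(x)`; the elements of this field are the quotients `A(h) / B(h)`, where `A`, `B` are polynomials over `ℚ[x]`. -/
def Connected (h : Fin r → PowerSeries ℚ) : Prop := ∀ A B : MvPolynomial (Fin r) (Polynomial ℚ),
  IsAlgebraic (Polynomial ℚ) (algebraMap (PowerSeries ℚ) (FractionRing (PowerSeries ℚ)) (MvPolynomial.aeval h A) /
    algebraMap (PowerSeries ℚ) (FractionRing (PowerSeries ℚ)) (MvPolynomial.aeval h B)) →
  ∃ a b : Polynomial ℚ, b ≠ 0 ∧ algebraMap (PowerSeries ℚ) (FractionRing (PowerSeries ℚ)) (MvPolynomial.aeval h A) /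
    algebraMap (PowerSeries ℚ) (FractionRing (PowerSeries ℚ)) (MvPolynomial.aeval h B) =
      algebraMap (Polynomial ℚ) (FractionRing (PowerSeries ℚ)) a /
        algebraMap (Polynomial ℚ) (FractionRing (PowerSeries ℚ)) b

/-- the value `h_i(1 / t)` -/
noncomputable def value (h : Fin r → PowerSeries ℚ) (t : ℕ) (i : Fin r) : ℂ :=
  ((∑' m : ℕ, ((coeff m (h i) : ℚ) : ℝ) * (1 / (t : ℝ)) ^ m : ℝ) : ℂ)

/-- the point with the coordinates `h_i(1 / t_j)` -/
noncomputable def point (h : Fin r → PowerSeries ℚ) (t : Fin k → ℕ) : Fin k × Fin r → ℂ := fun a => value h (t a.1) a.2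

/-- the point with the coordinates `l_j` and `y_(j,i)` -/
def withLogs (y : Fin k × Fin r → ℂ) (l : Fin k → ℂ) : Fin k × Option (Fin r) → ℂ :=
  fun a => a.2.elim (l a.1) fun i => y (a.1, i)

/-- specialisation at `x = 1 / t` -/
noncomputable def spec (t : ℕ) : Polynomial ℚ →+* ℂ := (algebraMap ℚ ℂ).comp (Polynomial.evalRingHom (1 / (t : ℚ)))

/-- the common zeros of the specialisations at `x = 1 / t` of all polynomial relations `R(x, h(x)) = 0` over `ℚ[x]` -/
def Fibre (h : Fin r → PowerSeries ℚ) (t : ℕ) : Set (Fin r → ℂ) :=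
  {y | ∀ R : MvPolynomial (Fin r) (Polynomial ℚ), MvPolynomial.aeval h R = 0 → MvPolynomial.eval₂ (spec t) y R = 0}

/-- sets with irreducible Zariski closure (or empty) -/
def IsIrred (Y : Set (σ → ℂ)) : Prop := ∀ P Q : MvPolynomial σ ℂ,
  (∀ y ∈ Y, MvPolynomial.eval y P * MvPolynomial.eval y Q = 0) →
  (∀ y ∈ Y, MvPolynomial.eval y P = 0) ∨ (∀ y ∈ Y, MvPolynomial.eval y Q = 0)

/-- the irreducible sets in the product of the fibres at `1 / t_j` which contain the point `(h(1 / t_j))_j` -/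
def IsComponent (h : Fin r → PowerSeries ℚ) (t : Fin k → ℕ) (Y : Set (Fin k × Fin r → ℂ)) : Prop :=
  IsIrred Y ∧ (∀ y ∈ Y, ∀ j, (fun i => y (j, i)) ∈ Fibre h (t j)) ∧ point h t ∈ Y

/-- every polynomial relation of degree `≤ d` over a number field of degree `≤ D` between the constants `c` and the
coordinates of `x` holds between `c` and `y` for all `y` in `Y` -/
def HoldOn (c : υ → ℂ) (x : σ → ℂ) (Y : Set (σ → ℂ)) (D d : ℕ) : Prop :=
  ∀ K : IntermediateField ℚ ℂ, FiniteDimensional ℚ K → Module.finrank ℚ K ≤ D →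
  ∀ P : MvPolynomial (υ ⊕ σ) K, P.totalDegree ≤ d → MvPolynomial.aeval (Sum.elim c x) P = 0 →
  ∀ y ∈ Y, MvPolynomial.aeval (Sum.elim c y) P = 0

/-- the polynomial `P(c, ·)` -/
noncomputable def subst (c : υ → ℂ) {K : IntermediateField ℚ ℂ} (P : MvPolynomial (υ ⊕ σ) K) : MvPolynomial σ ℂ :=
  MvPolynomial.aeval (Sum.elim (fun v => MvPolynomial.C (c v)) MvPolynomial.X) P

/-- every polynomial relation `P(c, x) = 0` of degree `≤ d` over a number field of degree `≤ D` between the constants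
`c` and the coordinates of `x` satisfies: `P(c, ·)` lies in the ideal `I` -/
def LieIn (c : υ → ℂ) (x : σ → ℂ) (I : Ideal (MvPolynomial σ ℂ)) (D d : ℕ) : Prop :=
  ∀ K : IntermediateField ℚ ℂ, FiniteDimensional ℚ K → Module.finrank ℚ K ≤ D →
  ∀ P : MvPolynomial (υ ⊕ σ) K, P.totalDegree ≤ d → MvPolynomial.aeval (Sum.elim c x) P = 0 → subst c P ∈ I

/-- the ideal generated by the specialisations at `x = 1 / t_j` of the polynomial relations `R(x, h(x)) = 0` of degree
`≤ d` with coefficients in `ℚ[x]`, in terms of the variables `e (j, i)` -/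
noncomputable def relIdeal (d : ℕ) (h : Fin r → PowerSeries ℚ) (t : Fin k → ℕ) (e : Fin k × Fin r → σ) :
    Ideal (MvPolynomial σ ℂ) :=
  Ideal.span {Q | ∃ (j : Fin k) (R : MvPolynomial (Fin r) (Polynomial ℚ)), R.totalDegree ≤ d ∧
    MvPolynomial.aeval h R = 0 ∧ Q = MvPolynomial.rename (fun i => e (j, i)) (MvPolynomial.map (spec (t j)) R)}

/-- the function `F(Ω, log x, h_1(x), ..., h_r(x))` of `x > 0` -/
noncomputable def fn {p : ℕ} (Ω : Fin p → ℂ) (h : Fin r → PowerSeries ℚ) (F : MvPolynomial (Fin p ⊕ Option (Fin r)) ℚ)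
    (x : ℝ) : ℂ :=
  MvPolynomial.aeval (Sum.elim Ω fun o => o.elim ((Real.log x : ℝ) : ℂ)
    fun i => ((∑' n : ℕ, ((coeff n (h i) : ℚ) : ℝ) * x ^ n : ℝ) : ℂ)) F

/-- evaluation at `x` of polynomials over the field of algebraic numbers -/
noncomputable def evalAlg (x : ℝ) : Polynomial (algebraicClosure ℚ ℂ) →+* ℂ :=
  (Polynomial.evalRingHom (x : ℂ)).comp (Polynomial.mapRingHom (algebraMap (algebraicClosure ℚ ℂ) ℂ))

/-- `R(x, f(x)) = 0` for all small `x > 0` -/
def IsFunctionalRelation {m : ℕ} (f : Fin m → ℝ → ℂ) (R : MvPolynomial (Fin m) (Polynomial (algebraicClosure ℚ ℂ))) :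
    Prop :=
  ∃ ε : ℝ, 0 < ε ∧ ∀ x : ℝ, 0 < x → x < ε → MvPolynomial.eval₂ (evalAlg x) (fun a => f a x) R = 0

/-- The degree-`δ` statement at `s`, over all number fields of degree `≤ D`: every polynomial `Q` of degree `≤ δ` over
a number field of degree `≤ D` which vanishes at `f(s)` is a linear combination of specialisations `R(s, ·)` of
functional relations `R` of degree `≤ δ` over `ℚ̄[x]`; in particular `Q` vanishes on the fibre at `s` of the
`ℚ̄`-Zariski closure of the graph of `f`. -/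
def DegreeStatement {m : ℕ} (f : Fin m → ℝ → ℂ) (D δ : ℕ) (s : ℝ) : Prop :=
  ∀ K : IntermediateField ℚ ℂ, FiniteDimensional ℚ K → Module.finrank ℚ K ≤ D →
  ∀ Q : MvPolynomial (Fin m) K, Q.totalDegree ≤ δ → MvPolynomial.aeval (fun a => f a s) Q = 0 →
  MvPolynomial.map (algebraMap K ℂ) Q ∈ Submodule.span ℂ {P | ∃ R : MvPolynomial (Fin m)
    (Polynomial (algebraicClosure ℚ ℂ)), R.totalDegree ≤ δ ∧ IsFunctionalRelation f R ∧
      P = MvPolynomial.map (evalAlg s) R}

/-- the property `Φ` holds for all `k`-tuples of different elements `t - G u_j` of the window, `1 ≤ u_j ≤ H`, which do not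
meet `S` -/
def InWindow (G H t : ℕ) (S : Finset ℕ) (Φ : (Fin k → ℕ) → Prop) : Prop :=
  ∀ u : Fin k → ℕ, Function.Injective u → (∀ j, 1 ≤ u j ∧ u j ≤ H ∧ u j ∉ S) → Φ fun j => t - G * u j

/-- the transcendence degree of the field generated by the constants -/
noncomputable def constDeg {p : ℕ} (Ω : Fin p → ℂ) : Cardinal :=
  Algebra.trdeg ℚ (IntermediateField.adjoin ℚ (Set.range Ω))

end

theorem iter_eq {r : ℕ} (T : Polynomial ℤ) (A : Fin r → Fin r → Polynomial ℤ) (s : ℕ) :
    iter T A s = Pool.Agent.Y120.GH.itm T A s := by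
  induction s with
  | zero => rfl
  | succ s ih =>
    funext i j
    rw [iter, Pool.Agent.Y120.GH.itm, ih]

theorem qu_eq {r : ℕ} {T : Polynomial ℤ} {A : Fin r → Fin r → Polynomial ℤ} (h : QuasiUnipotent T A) :
    Pool.Agent.Y120.GH.QU0 T A := by
  obtain ⟨e, M, K, Φ, he, hdet, hc, heq⟩ := h
  have he0 : e ≠ 0 := by omega
  refine ⟨e, he0, M, K, Φ, hc, fun i j n => ?_, hdet⟩
  have h1 := heq i j n
  simp only [atPow] at h1
  rw [Pool.Agent.Y120.GH.expand_poly he0]
  simp only [Pool.Agent.Y120.GH.expand_poly he0]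
  exact h1

theorem gal_eq {r : ℕ} {T : Polynomial ℤ} {A : Fin r → Fin r → Polynomial ℤ} {h : Fin r → PowerSeries ℚ}
    (hG : GFamily T A h) : ∃ C : ℝ, ∀ m, ∃ d : ℕ, 0 < d ∧ (d : ℝ) ≤ C ^ (m + 1) ∧ ∀ s ≤ m, ∀ i j, ∃ H : Polynomial ℤ,
      (d : Polynomial ℤ) * Pool.Agent.Y120.GH.itm T A s i j = (s.factorial : Polynomial ℤ) * H := by
  obtain ⟨C, hC⟩ := hG.galochkin
  refine ⟨C, fun m => ?_⟩
  obtain ⟨d, h1, h2, h3⟩ := hC m
  refine ⟨d, h1, h2, fun s hs i' j' => ?_⟩
  rw [← iter_eq]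
  exact h3 s hs i' j'

theorem fv_eq {r p m : ℕ} (Ω : Fin p → ℂ) (h : Fin r → PowerSeries ℚ) (F : Fin m → MvPolynomial (Fin p ⊕ Option (Fin r)) ℚ)
    (x : ℝ) (a : Fin m) : Pool.Agent.Y118.UL.fv Ω h F x a = fn Ω h (F a) x := by
  unfold Pool.Agent.Y118.UL.fv fn Pool.Agent.Y113.ev
  simp only [one_div_one_div]

/-- Part (B) for a family of G-functions. -/
theorem partB {r : ℕ} (T : Polynomial ℤ) (A : Fin r → Fin r → Polynomial ℤ) (h : Fin r → PowerSeries ℚ)
    (hG : GFamily T A h) :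
    ∃ G0 : ℕ, ∀ G : ℕ, G0 ≤ G → ∀ (p : ℕ) (Ω : Fin p → ℂ) (q k D d : ℕ), ∃ E : ℕ, ∀ H t : ℕ, (H + 2) ^ E ≤ t →
      ∀ w : Fin q → ℂ,
      (∃ S : Finset ℕ, (S.card : Cardinal) ≤ constDeg Ω + q ∧ InWindow G H t S fun (s : Fin k → ℕ) =>
        ∀ Y, IsComponent h s Y → HoldOn (Sum.elim Ω w) (point h s) Y D d) ∧
      (∃ S : Finset ℕ, (S.card : Cardinal) ≤ constDeg Ω + q + 1 ∧ InWindow G H t S fun (s : Fin k → ℕ) =>
        ∀ Y, IsComponent h s Y → HoldOn (Sum.elim Ω w) (withLogs (point h s) fun j => ((Real.log (s j) : ℝ) : ℂ))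
          {z | ∃ y ∈ Y, ∃ l, z = withLogs y l} D d) ∧
      (Connected h →
        (∃ S : Finset ℕ, (S.card : Cardinal) ≤ constDeg Ω + q ∧ InWindow G H t S fun (s : Fin k → ℕ) =>
          LieIn (Sum.elim Ω w) (point h s) (relIdeal d h s id) D d) ∧
        (∃ S : Finset ℕ, (S.card : Cardinal) ≤ constDeg Ω + q + 1 ∧ InWindow G H t S fun (s : Fin k → ℕ) =>
          LieIn (Sum.elim Ω w) (withLogs (point h s) fun j => ((Real.log (s j) : ℝ) : ℂ))
            (relIdeal d h s fun a => (a.1, some a.2)) D d)) := by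
  by_cases hc : Connected h
  · obtain ⟨G1, h1⟩ := Pool.Agent.Y118.UL.win hG.T_ne hG.ode hG.size hG.den (gal_eq hG) (qu_eq hG.regular)
    obtain ⟨G2, h2⟩ := Pool.Agent.Y118.UL.winR hG.T_ne hG.ode hG.size hG.den (gal_eq hG) (qu_eq hG.regular) hc
    refine ⟨G1 + G2, fun G hGG p Ω q k D d => ?_⟩
    obtain ⟨E1, hE1⟩ := h1 G (by omega) p Ω q k D d
    obtain ⟨E2, hE2⟩ := h2 G (by omega) p Ω q k D d
    refine ⟨E1 + E2, fun H t ht => ?_⟩
    obtain ⟨h3, h4⟩ := hE1 H t ((Nat.pow_le_pow_right (by omega) (by omega)).trans ht)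
    have h5 := hE2 H t ((Nat.pow_le_pow_right (by omega) (by omega)).trans ht)
    refine fun w => ⟨?_, ?_, fun _ => ⟨?_, ?_⟩⟩
    · obtain ⟨S, hS, hS2⟩ := (h4 w).1
      exact ⟨S, hS, fun u hu huS Y hY K hK hK2 P hP hP0 y hy => hS2 u hu huS Y hY.1 hY.2.1 hY.2.2 K hK hK2 P hP hP0 y hy⟩
    · obtain ⟨S, hS, hS2⟩ := (h4 w).2
      refine ⟨S, hS, fun u hu huS Y hY K hK hK2 P hP hP0 z hz => ?_⟩
      obtain ⟨y, hy, l, rfl⟩ := hz
      exact hS2 u hu huS Y hY.1 hY.2.1 hY.2.2 K hK hK2 P hP hP0 y hy l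
    · obtain ⟨S, hS, hS2⟩ := (h5 w).1
      exact ⟨S, hS, fun u hu huS K hK hK2 P hP hP0 => hS2 u hu huS K hK hK2 P hP hP0⟩
    · obtain ⟨S, hS, hS2⟩ := (h5 w).2
      exact ⟨S, hS, fun u hu huS K hK hK2 P hP hP0 => hS2 u hu huS K hK hK2 P hP hP0⟩
  · obtain ⟨G1, h1⟩ := Pool.Agent.Y118.UL.win hG.T_ne hG.ode hG.size hG.den (gal_eq hG) (qu_eq hG.regular)
    refine ⟨G1, fun G hGG p Ω q k D d => ?_⟩
    obtain ⟨E1, hE1⟩ := h1 G hGG p Ω q k D d
    refine ⟨E1, fun H t ht => ?_⟩
    obtain ⟨h3, h4⟩ := hE1 H t ht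
    refine fun w => ⟨?_, ?_, fun h => absurd h hc⟩
    · obtain ⟨S, hS, hS2⟩ := (h4 w).1
      exact ⟨S, hS, fun u hu huS Y hY K hK hK2 P hP hP0 y hy => hS2 u hu huS Y hY.1 hY.2.1 hY.2.2 K hK hK2 P hP hP0 y hy⟩
    · obtain ⟨S, hS, hS2⟩ := (h4 w).2
      refine ⟨S, hS, fun u hu huS Y hY K hK hK2 P hP hP0 z hz => ?_⟩
      obtain ⟨y, hy, l, rfl⟩ := hz
      exact hS2 u hu huS Y hY.1 hY.2.1 hY.2.2 K hK hK2 P hP hP0 y hy l

/-- Let `h = (h_1, ..., h_r)` be a family of G-functions. For all large `G` and all constants `Ω_1, ..., Ω_p`: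

(A) Let the family be connected. For all polynomials `F_1, ..., F_m` over `ℚ` in `Ω`, `log x`, `h(x)` and all `D`, `δ`
there is `E` such that for all `H` and all `t ≥ (H + 2)^E` there is a set `S` of at most `trdeg ℚ(Ω) + 1` integers (at
most `trdeg ℚ(Ω)` if `log x` does not occur in the `F_a`) such that for all `1 ≤ u ≤ H`, `u ∉ S`, the degree-`δ`
statement over all number fields of degree `≤ D` holds at `s = 1 / (t - G u)` for the functions
`F_a(Ω, log x, h(x))`.

(B) For all `q`, `k`, `D`, `d` there is `E` such that for all `H`, all `t ≥ (H + 2)^E` and all further constants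
`w_1, ..., w_q` (which may depend on `t`) there is a set `S` of at most `trdeg ℚ(Ω) + q` integers such that for all
`k`-tuples of different `t_j = t - G u_j`, `1 ≤ u_j ≤ H`, `u_j ∉ S`, the relations of degree `≤ d` over number fields of
degree `≤ D` between `Ω`, `w` and the `h_i(1 / t_j)` hold on every irreducible set through the point
`(h(1 / t_j))_j` in the product of the specialisations at `1 / t_j` of the variety of functional relations; the same
with `trdeg ℚ(Ω) + q + 1` for the relations between `Ω`, `w`, `log t_j` and `h_i(1 / t_j)`, which hold for arbitrary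
values of the `log t_j`. If the family is connected then moreover, with the same bounds, all these relations lie in
the ideal generated by the specialisations of the functional relations of degree `≤ d` over `ℚ[x]`. -/
theorem result {r : ℕ} (T : Polynomial ℤ) (A : Fin r → Fin r → Polynomial ℤ) (h : Fin r → PowerSeries ℚ)
    (hG : GFamily T A h) :
    ∃ G0 : ℕ, ∀ G : ℕ, G0 ≤ G → ∀ (p : ℕ) (Ω : Fin p → ℂ),
      (Connected h → ∀ (m : ℕ) (F : Fin m → MvPolynomial (Fin p ⊕ Option (Fin r)) ℚ) (D δ : ℕ),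
        ∃ E : ℕ, ∀ H t : ℕ, (H + 2) ^ E ≤ t → (∀ u ≤ H, G * u < t) ∧ ∃ S : Finset ℕ,
          (S.card : Cardinal) ≤ constDeg Ω + 1 ∧
          ((∀ a, Sum.inr none ∉ (F a).vars) → (S.card : Cardinal) ≤ constDeg Ω) ∧
          ∀ u : ℕ, 1 ≤ u → u ≤ H → u ∉ S →
            DegreeStatement (fun a => fn Ω h (F a)) D δ (1 / ((t - G * u : ℕ) : ℝ))) ∧
      (∀ q k D d : ℕ, ∃ E : ℕ, ∀ H t : ℕ, (H + 2) ^ E ≤ t → ∀ w : Fin q → ℂ,
        (∃ S : Finset ℕ, (S.card : Cardinal) ≤ constDeg Ω + q ∧ InWindow G H t S fun (s : Fin k → ℕ) =>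
          ∀ Y, IsComponent h s Y → HoldOn (Sum.elim Ω w) (point h s) Y D d) ∧
        (∃ S : Finset ℕ, (S.card : Cardinal) ≤ constDeg Ω + q + 1 ∧ InWindow G H t S fun (s : Fin k → ℕ) =>
          ∀ Y, IsComponent h s Y → HoldOn (Sum.elim Ω w) (withLogs (point h s) fun j => ((Real.log (s j) : ℝ) : ℂ))
            {z | ∃ y ∈ Y, ∃ l, z = withLogs y l} D d) ∧
        (Connected h →
          (∃ S : Finset ℕ, (S.card : Cardinal) ≤ constDeg Ω + q ∧ InWindow G H t S fun (s : Fin k → ℕ) =>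
            LieIn (Sum.elim Ω w) (point h s) (relIdeal d h s id) D d) ∧
          (∃ S : Finset ℕ, (S.card : Cardinal) ≤ constDeg Ω + q + 1 ∧ InWindow G H t S fun (s : Fin k → ℕ) =>
            LieIn (Sum.elim Ω w) (withLogs (point h s) fun j => ((Real.log (s j) : ℝ) : ℂ))
              (relIdeal d h s fun a => (a.1, some a.2)) D d))) := by
  obtain ⟨G1, h1⟩ := partB T A h hG
  by_cases hc : Connected h
  · obtain ⟨G2, h2⟩ := Pool.Agent.Y118.UL.lit hG.T_ne hG.ode hG.size hG.den (gal_eq hG) (qu_eq hG.regular) hc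
    refine ⟨G1 + G2, fun G hGG p Ω => ⟨fun _ m F D δ => ?_, fun q k D d => h1 G (by omega) p Ω q k D d⟩⟩
    obtain ⟨E, hE⟩ := h2 G (by omega) p Ω m F D δ
    refine ⟨E, fun H t ht => ?_⟩
    obtain ⟨h3, S, h4, h5, h6⟩ := hE H t ht
    refine ⟨h3, S, h4, h5, fun u hu1 hu2 huS K hK hKD Q hQ hQ0 => ?_⟩
    have hcast : ∀ x : ℝ, Pool.Agent.Y118.UL.evA ((x : ℝ) : ℂ) = evalAlg x := fun x => rfl
    have hc2 : (1 / ((t - G * u : ℕ) : ℂ)) = ((1 / ((t - G * u : ℕ) : ℝ) : ℝ) : ℂ) := by push_cast; rfl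
    have h7 := h6 u hu1 hu2 huS K hK hKD Q hQ (by
      rw [← hQ0]
      congr 2
      funext a
      exact fv_eq Ω h F _ a)
    refine Submodule.span_mono ?_ h7
    rintro P ⟨R, hR1, ⟨ε, hε, hR2⟩, rfl⟩
    refine ⟨R, hR1, ⟨ε, hε, fun x hx1 hx2 => ?_⟩, ?_⟩
    · have h8 := hR2 x hx1 hx2
      rw [hcast] at h8
      rw [← h8]
      congr 1
      funext a
      exact (fv_eq Ω h F x a).symm
    · rw [hc2, hcast]
  · exact ⟨G1, fun G hGG p Ω => ⟨fun h => absurd h hc, fun q k D d => h1 G hGG p Ω q k D d⟩⟩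

end Pool.Agent.Results.MP_290158_ag.AllFamiliesWindows
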