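import Pool.Agent.Y921.DB.Fin

/-!
# Degree-bounded period relations in the families of cyclic covers of the line

Let `a_1, …, a_n` be distinct nonzero algebraic numbers, `e₀ ≥ 1`, `e_1, …, e_n ≥ 0` and `N ≥ 1` integers, and let `C_z` be
the curve

  `y ^ N = (x - z) ^ e₀ ∏_j (x - a_j) ^ (e_j)`.

It is a family over the `z`-line; for `N = 2` and exponents `1` it consists of hyperelliptic curves. If `N` is prime to
`e₀`, to all `e_j` and to `e₀ + ∑ e_j`, the forms `x ^ i dx / y ^ k`, `0 ≤ i < n`, `1 ≤ k < N`, are a basis of the de Rham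
cohomology `H¹` of `C_z`.

The loops: over the disc `|x| ≤ ρ`, which contains no `a_j`, the curve `C_z`, `|z| < ρ`, is a union of discs, hence all
homology classes are represented by loops outside, and `(x, y) ↦ (x, y (1 - z / x) ^ (e₀ / N))` identifies the loops on
`C_0` and on `C_z` which are outside this disc. This is the parallel transport of the loops.

The theorem: for every number field `K` and every degree `δ` there are `c > 0` and `M` such that in each short interval
`[N₀, N₀ + N₀ ^ c]` all integers `m` but at most `M` have the following property: every relation of degree at most `δ` over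
`K` between the periods of the fibre over the point `s = 1 / m` is the value at `s` of a relation over `K[z]`, of degree at
most `δ`, which holds identically on the graph of the period map. Hence it is in the ideal of the fibre of the Zariski
closure of the graph.

The periods are expressed by explicit G-functions over a number field (with a proof that they are G-functions), the
theorem on the values of G-functions is applied after restriction of scalars, and the relations descend from `ℂ` to `K`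
by a specialisation argument for the kernels of matrices over `K[z]`.
-/

set_option autoImplicit false

namespace Pool.Agent.Results.MP_290158_ag.CyclicCoverWindows

/-- `(x, y)` is a closed path (parametrised by `[0, 1]`, with continuously differentiable coordinates) on the affine curve
`y ^ N = x ^ e₀ ∏ (x - a j) ^ (e j)`, the fibre `C_0`, outside the disc `|x| ≤ ρ` and away from the points `x = a j`. -/
structure IsClosedPath {n : ℕ} (N e₀ : ℕ) (a : Fin n → ℂ) (e : Fin n → ℕ) (ρ : ℝ) (x y : ℝ → ℂ) : Prop where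
  smooth_x : ContDiff ℝ 1 x
  smooth_y : ContDiff ℝ 1 y
  closed_x : x 0 = x 1
  closed_y : y 0 = y 1
  curve : ∀ t ∈ Set.Icc (0 : ℝ) 1, y t ^ N = x t ^ e₀ * ∏ j, (x t - a j) ^ e j
  away : ∀ t ∈ Set.Icc (0 : ℝ) 1, (∀ j, x t ≠ a j) ∧ ρ < ‖x t‖

/-- The `y`-coordinate of the transported path `(x, y (1 - z / x) ^ (e₀ / N))` on the curve `C_z`. -/
noncomputable def transport (N e₀ : ℕ) (x y : ℝ → ℂ) (z : ℂ) (t : ℝ) : ℂ := y t * (1 - z / x t) ^ ((e₀ : ℂ) / N)

/-- The transported path is on the curve `C_z`. -/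
theorem transport_pow {n N e₀ : ℕ} {a : Fin n → ℂ} {e : Fin n → ℕ} {ρ : ℝ} {x y : ℝ → ℂ} (hN : 0 < N)
    (h : IsClosedPath N e₀ a e ρ x y) (hρ : 0 ≤ ρ) {z : ℂ} {t : ℝ} (ht : t ∈ Set.Icc (0 : ℝ) 1) :
    transport N e₀ x y z t ^ N = (x t - z) ^ e₀ * ∏ j, (x t - a j) ^ e j :=
  Pool.Agent.Y921.DB.yz_pow hN ⟨h.smooth_x, h.smooth_y, h.closed_x, h.closed_y, h.curve, h.away⟩ hρ ht

/-- The period `∮ x ^ i dx / y ^ k` over the transported path on `C_z`. -/
noncomputable def period (N e₀ : ℕ) (x y : ℝ → ℂ) (z : ℂ) (k i : ℕ) : ℂ :=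
  ∫ t in (0 : ℝ)..1, x t ^ i / transport N e₀ x y z t ^ k * deriv x t

/-- All the periods of `C_z`: the forms `x ^ i dx / y ^ k` with `0 ≤ i < n`, `1 ≤ k ≤ κ`, and `σ` paths. -/
noncomputable def periods {n σ κ : ℕ} (N e₀ : ℕ) (x y : Fin σ → ℝ → ℂ) (z : ℂ) (v : Fin σ × Fin κ × Fin n) : ℂ :=
  period N e₀ (x v.1) (y v.1) z (v.2.1 + 1) v.2.2

/-- The degree `δ` statement over `K` at the point `s` of the line, for the functions `P`: every polynomial `F` of total
degree at most `δ` with coefficients in `K` which vanishes at `P(s)` is the value at `z = s` of a polynomial `G` over `K[z]`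
of total degree at most `δ` with `G(z, P(z)) = 0` for all `z` with `|z| < r`. -/
def DegreeStatement (K : Type) [Field K] [Algebra K ℂ] {ι : Type} (P : ℂ → ι → ℂ) (r : ℝ) (δ : ℕ) (s : K) : Prop :=
  ∀ F : MvPolynomial ι K, F.totalDegree ≤ δ → MvPolynomial.aeval (P (algebraMap K ℂ s)) F = 0 →
    ∃ G : MvPolynomial ι (Polynomial K), G.totalDegree ≤ δ ∧ G.map (Polynomial.evalRingHom s) = F ∧
      ∀ z : ℂ, ‖z‖ < r → G.eval₂ (Polynomial.aeval z : Polynomial K →ₐ[K] ℂ).toRingHom (P z) = 0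

/-- In each interval `[N₀, N₀ + N₀ ^ c]` all integers `m`, with at most `M` exceptions, satisfy the degree `δ` statement over
the number field `K` at `s = 1 / m`, for all periods of the curves `C_z : y ^ N = (x - z) ^ e₀ ∏ (x - a j) ^ (e j)`. -/
theorem result {n N e₀ σ κ : ℕ} (hN : 0 < N) (he₀ : 0 < e₀) (a : Fin n → ℂ) (ha : Function.Injective a)
    (halg : ∀ j, IsAlgebraic ℚ (a j)) (ha0 : ∀ j, a j ≠ 0) (e : Fin n → ℕ) {ρ : ℝ} (hρ : 0 < ρ)
    (x y : Fin σ → ℝ → ℂ) (path : ∀ s, IsClosedPath N e₀ a e ρ (x s) (y s))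
    (K : Type) [Field K] [NumberField K] [Algebra K ℂ] (δ : ℕ) :
    ∃ r : ℝ, 0 < r ∧ r ≤ ρ ∧ ∃ c : ℝ, 0 < c ∧ ∃ M : ℕ, ∀ N₀ : ℕ, 1 ≤ N₀ → ∃ E : Finset ℕ, E.card ≤ M ∧
      ∀ m : ℕ, N₀ ≤ m → (m : ℝ) ≤ N₀ + (N₀ : ℝ) ^ c → m ∉ E →
        1 / (m : ℝ) < r ∧ DegreeStatement K (periods (n := n) (κ := κ) N e₀ x y) r δ (1 / (m : K)) := by
  let F : Pool.Agent.Y921.DB.Fam 1 :=
    { n := fun _ => n, N := fun _ => N, e₀ := fun _ => e₀, κ := fun _ => κ, σ := fun _ => σ, a := fun _ => a,
      e := fun _ => e, ρ := fun _ => ρ, x := fun _ => x, y := fun _ => y, hN := fun _ => hN, he := fun _ => he₀,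
      ha := fun _ => ha, halg := fun _ => halg, ha0 := fun _ => ha0, hρ := fun _ => hρ,
      path := fun _ s => ⟨(path s).smooth_x, (path s).smooth_y, (path s).closed_x, (path s).closed_y, (path s).curve,
        (path s).away⟩ }
  obtain ⟨r, hr, hrρ, c, hc, M, hM⟩ := Pool.Agent.Y921.DB.Fam.win K F δ
  refine ⟨r, hr, hrρ 0, c, hc, M, fun N₀ hN₀ => ?_⟩
  obtain ⟨E, hE, hE'⟩ := hM N₀ hN₀
  refine ⟨E, hE, fun m h1 h2 h3 => ?_⟩
  obtain ⟨h4, h5⟩ := hE' m h1 h2 h3
  refine ⟨h4, ?_⟩
  have h6 : Pool.Agent.Y921.DB.Spec1 K (periods (n := n) (κ := κ) N e₀ x y) r δ m := by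
    refine Pool.Agent.Y921.DB.SpecK.one (p := F.P)
      (Equiv.ofBijective (fun v : Fin σ × Fin κ × Fin n => (⟨0, v⟩ : F.τ)) ⟨fun v w hvw => ?_, fun w => ?_⟩)
      (fun z v => rfl) h5
    · exact eq_of_heq (Sigma.mk.inj hvw).2
    · obtain ⟨l, v⟩ := w
      obtain rfl : l = 0 := Subsingleton.elim _ _
      exact ⟨v, rfl⟩
  intro P hP h0
  have h7 : algebraMap K ℂ (1 / (m : K)) = 1 / (m : ℂ) := by simp
  rw [h7] at h0
  obtain ⟨G, hG1, hG2, hG3⟩ := h6 P hP h0
  exact ⟨G, hG1, hG3, hG2⟩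

end Pool.Agent.Results.MP_290158_ag.CyclicCoverWindows
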