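import Pool.Agent.Y327.HP.Cnt

/-!
# MP_290158_ag: degree-one relations in all families of hyperelliptic curves

For a configuration `a` of `2g + 1` distinct points let `C_a : y² = ∏ (x - a_i)` and
`C_a^{(s)} : s y² = ∏ (x - a_i)`. For every set `T` of configurations (for instance a point, or the
whole configuration space) the products `C_a × C_a^{(s)}` form a family over `S = T × 𝔾_m`.
-/

set_option autoImplicit false

namespace Pool.Agent.Results.MP_290158_ag.HyperellipticFamilies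

open Pool.Agent.Y327.HP

theorem result (g : ℕ) (hg : 1 ≤ g) (K : IntermediateField ℚ ℂ) [FiniteDimensional ℚ K]
    (T : Set (Conf g)) (hT : ∀ a ∈ T, Function.Injective a) (δ : ℕ) (hδ : 1 ≤ δ) :
    (∀ a ∈ T, ∀ s s' : ℂ, s ≠ 0 → s' ≠ 0 → HodgeIso a a s s') ∧
    (∀ a ∈ T, (∀ i, IsAlgebraic ℚ (a i)) → ∀ s₀ r : ℂ, s₀ ≠ 0 → IsAlgebraic ℚ s₀ → r ^ 2 = s₀ →
      r ∈ kap K a s₀ →
      (∀ (U : Set (Conf g × ℂ)) (Γ : Conf g × ℂ → Row g → ℝ → Pt),
        IsLocalFrame T (GLn g) U Γ → (a, s₀) ∈ U → ∀ G, graph U Γ ⊆ G →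
          HasRelation K a s₀ δ (ptClosure (GLn g) (perMat (Γ (a, s₀))))
            {M | ((a, s₀), M) ∈ BVar T (GLn g) G}) ∧
      (∀ (ι : Type) (U : Set (Conf g × ℂ)) (Γ : Conf g × ℂ → ι → ℝ → Pt),
        IsLocalFrame T Set.univ U Γ → (a, s₀) ∈ U → ∀ G, graph U Γ ⊆ G →
          HasRelation K a s₀ δ (ptClosure Set.univ (perMat (Γ (a, s₀))))
            {M | ((a, s₀), M) ∈ BVar T Set.univ G})) ∧
    (∀ a ∈ T, ∀ s₀ : ℂ, s₀ ≠ 0 →
      (∃ γ : ℕ → ℝ → Pt, Generates a s₀ γ) ∧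
      (∀ γ : Row g → ℝ → Pt, Generates a s₀ γ → perMat γ ∈ GLn g →
        ∃ (U : Set (Conf g × ℂ)) (Γ : Conf g × ℂ → Row g → ℝ → Pt), (a, s₀) ∈ U ∧
          Γ (a, s₀) = γ ∧ IsLocalFrame T (GLn g) U Γ) ∧
      (∀ (ι : Type) (γ : ι → ℝ → Pt), Generates a s₀ γ →
        ∃ (U : Set (Conf g × ℂ)) (Γ : Conf g × ℂ → ι → ℝ → Pt), (a, s₀) ∈ U ∧
          Γ (a, s₀) = γ ∧ IsLocalFrame T Set.univ U Γ)) := by
  refine ⟨fun a _ s s' hs hs' => hodgeIso_all a hs hs', ?_, ?_⟩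
  · intro a ha haa s₀ r h0 hsa hr hrk
    have hcount := Lam_countable' a h0
    refine ⟨fun U Γ hΓ hU G hG => ?_, fun ι U Γ hΓ hU G hG => ?_⟩
    · exact main_frames hg K GLn_stable (hT a ha) haa hδ h0 hsa hr hrk hΓ hU hcount hG
    · exact main_frames hg K (fun _ _ _ _ => Set.mem_univ _) (hT a ha) haa hδ h0 hsa hr hrk hΓ
        hU hcount hG
  · intro a ha s₀ h0
    exact ⟨exists_generates_nat a h0, fun γ h hM => exists_frame_GL (hT a ha) ha h0 h hM,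
      fun ι γ h => exists_frame_univ (hT a ha) ha h0 h⟩

end Pool.Agent.Results.MP_290158_ag.HyperellipticFamilies
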