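import Pool.Agent.Y119.HA.Win

/-!
# Period relations of bounded degree at algebraic points of the hypergeometric families of Calabi–Yau type

Let `β_1, …, β_m` be rational numbers which are not integers, `n = 2m` and `θ = z d/dz`. The hypergeometric operator
`θ^n - z ∏_j (θ - β_j) (θ + β_j)` has maximally unipotent monodromy at `z = 0`; the mirror quintic family is contiguous to
the case `β = (1/5, 2/5)`. The period matrices of the corresponding family of motives at `z` near `0` are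
`A(z) Y(z) Ω` with the matrix `Y` of the derivatives of the Frobenius solutions, `A` over `ℚ(z)` and `Ω` constant (the
periods of the limit). We prove the degree-`δ` statement at algebraic points `z` of bounded degree.
-/

set_option autoImplicit false

open PowerSeries Pool.Agent.Y119.HZ

namespace Pool.Agent.Results.MP_290158_ag.HypergeometricAlgebraicPoints

/-- the power series `k + ε` in the variable `ε` -/
noncomputable def shift (k : ℕ) : PowerSeries ℚ := C (k : ℚ) + X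

/-- `a_k(ε) = ∏_{l < k} ∏_j ((l + ε)^2 - β_j^2) / (l + 1 + ε)^(2m)`. The series `∑_k a_k(ε) z^(k + ε)` solves the
equation `(θ^n - z ∏_j (θ^2 - β_j^2)) f = ε^n z^ε`, hence its coefficients `f_j` at `ε^j` with `j < n = 2m` are
solutions of the homogeneous equation. -/
noncomputable def frob {m : ℕ} (β : Fin m → ℚ) (k : ℕ) : PowerSeries ℚ :=
  ∏ l ∈ Finset.range k, ((∏ j, (shift l ^ 2 - C (β j ^ 2))) * ((shift (l + 1))⁻¹) ^ (2 * m))

/-- The matrix with the entries `(θ^i f_j)(z)` at `z = 1 / ξ`, where `f_j(z)` is the coefficient of `ε^j` in the series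
`∑_k a_k(ε) z^(k + ε)`, `z^ε = ∑_a (log z)^a ε^a / a!`, with the value `-l` of `log z`, where `exp l = ξ`. -/
noncomputable def Y {m : ℕ} (β : Fin m → ℚ) (ξ l : ℂ) : Matrix (Fin (2 * m)) (Fin (2 * m)) ℂ :=
  Matrix.of fun i j => ∑ a ∈ Finset.range ((j : ℕ) + 1), (-l) ^ a / (a.factorial : ℂ) *
    ∑' k : ℕ, ((coeff ((j : ℕ) - a) (shift k ^ (i : ℕ) * frob β k) : ℚ) : ℂ) * (1 / ξ) ^ k

/-- the polynomial `∏_j (x^2 - β_j^2)` -/
noncomputable def poly {m : ℕ} (β : Fin m → ℚ) : Polynomial ℚ := ∏ j, (Polynomial.X ^ 2 - Polynomial.C (β j ^ 2))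

/-- The matrix of the intersection form: the entry `(i, j)` is `(-1)^i q_{i+j+1-n}` for `i + j + 1 ≥ n` and `0`
otherwise, where `q_l` are the coefficients of `∏_j (x^2 - β_j^2)`. -/
noncomputable def J {m : ℕ} (β : Fin m → ℚ) : Matrix (Fin (2 * m)) (Fin (2 * m)) ℂ :=
  Matrix.of fun i j => if 2 * m ≤ (i : ℕ) + j + 1 then (((-1) ^ (i : ℕ) * (poly β).coeff (i + j + 1 - 2 * m) : ℚ) : ℂ) else 0

/-- the symplectic group of the form `J` -/
def Sp {m : ℕ} (β : Fin m → ℚ) : Set (Matrix (Fin (2 * m)) (Fin (2 * m)) ℂ) := {g | g.transpose * J β * g = J β}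

/-- the coordinates of `k` numbers and `k` matrices of size `n` -/
abbrev Coord (n k : ℕ) : Type := Σ _ : Fin k, Option (Fin n × Fin n)

/-- the point with the coordinates `l_i` and the entries of the matrices `X_i` -/
def point {k n : ℕ} (l : Fin k → ℂ) (X : Fin k → Matrix (Fin n) (Fin n) ℂ) : Coord n k → ℂ
  | ⟨i, none⟩ => l i
  | ⟨i, some p⟩ => X i p.1 p.2

/-- the coordinates of the constants: the entries of `Ω` and `q` further numbers `w` -/
def consts {n q : ℕ} (Ω : Matrix (Fin n) (Fin n) ℂ) (w : Fin q → ℂ) : Fin n × Fin n ⊕ Fin q → ℂ :=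
  Sum.elim (fun p => Ω p.1 p.2) w

/-- `ξ` is a root of a nonzero integral polynomial of degree at most `g` with coefficients of size at most `|ξ|^A` -/
def Height (g A : ℕ) (ξ : ℂ) : Prop :=
  ∃ p : Polynomial ℤ, p ≠ 0 ∧ p.natDegree ≤ g ∧ (∀ j, |(p.coeff j : ℝ)| ≤ ‖ξ‖ ^ A) ∧ Polynomial.aeval ξ p = 0

/-- `ξ` is an algebraic integer of degree at most `g` all of whose conjugates have absolute value at most `T` -/
def House (g T : ℕ) (ξ : ℂ) : Prop :=
  IsIntegral ℤ ξ ∧ (minpoly ℚ ξ).natDegree ≤ g ∧ ∀ z : ℂ, Polynomial.aeval z (minpoly ℚ ξ) = 0 → ‖z‖ ≤ T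

/-- For all choices `l_i` of the logarithms of the `ξ_i` and all number fields `K` of degree `≤ d`, every polynomial of
degree `≤ δ` over `K` which vanishes at the point with the coordinates `Ω`, `w`, `l_i` and the entries of the matrices
`Y(1 / ξ_i) Ω` vanishes at all points with the coordinates `Ω`, `w`, `l'_i ∈ ℂ` and the entries of `g_i Ω` with `g_i` in
the symplectic group. -/
def Generic {m k q : ℕ} (δ d : ℕ) (β : Fin m → ℚ) (Ω : Matrix (Fin (2 * m)) (Fin (2 * m)) ℂ) (w : Fin q → ℂ)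
    (ξ : Fin k → ℂ) : Prop :=
  ∀ l : Fin k → ℂ, (∀ i, Complex.exp (l i) = ξ i) →
    ∀ K : IntermediateField ℚ ℂ, FiniteDimensional ℚ K → Module.finrank ℚ K ≤ d →
    ∀ P : MvPolynomial ((Fin (2 * m) × Fin (2 * m) ⊕ Fin q) ⊕ Coord (2 * m) k) K, P.totalDegree ≤ δ →
    MvPolynomial.aeval (Sum.elim (consts Ω w) (point l fun i => Y β (ξ i) (l i) * Ω)) P = 0 →
    ∀ (l' : Fin k → ℂ) (g : Fin k → Matrix (Fin (2 * m)) (Fin (2 * m)) ℂ), (∀ i, g i ∈ Sp β) →
      MvPolynomial.aeval (Sum.elim (consts Ω w) (point l' fun i => g i * Ω)) P = 0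

/-- There are values `l_i` of the logarithms of the `ξ_i`, a number field `L` of degree `≤ d` and a polynomial relation of
degree `≤ δ` with coefficients in `L V` between the numbers `l_i` and the entries of the matrices `Y(1 / ξ_i) Ω_i` which does
not vanish identically on `ℂ^k × ∏_i Sp(J) Ω_i`. -/
def Exceptional {m k : ℕ} (δ d : ℕ) (V : Submodule ℚ ℂ) (β : Fin m → ℚ)
    (Ω : Fin k → Matrix (Fin (2 * m)) (Fin (2 * m)) ℂ) (ξ : Fin k → ℂ) : Prop :=
  ∃ l : Fin k → ℂ, (∀ i, Complex.exp (l i) = ξ i) ∧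
    ∃ L : IntermediateField ℚ ℂ, FiniteDimensional ℚ L ∧ Module.finrank ℚ L ≤ d ∧
    ∃ P : MvPolynomial (Coord (2 * m) k) ℂ, P.totalDegree ≤ δ ∧ (∀ s, P.coeff s ∈ Submodule.span L (V : Set ℂ)) ∧
      MvPolynomial.aeval (point l fun i => Y β (ξ i) (l i) * Ω i) P = 0 ∧
      ∃ (l' : Fin k → ℂ) (g : Fin k → Matrix (Fin (2 * m)) (Fin (2 * m)) ℂ), (∀ i, g i ∈ Sp β) ∧
        MvPolynomial.aeval (point l' fun i => g i * Ω i) P ≠ 0

theorem shift_eq (k : ℕ) : shift k = Pool.Agent.Y119.HY.kx k := rfl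

theorem frob_eq {m : ℕ} (β : Fin m → ℚ) (k : ℕ) : frob β k = Pool.Agent.Y119.HY.aq (2 * m) (Pool.Agent.Y119.HY.QB β) k := by
  unfold frob Pool.Agent.Y119.HY.aq
  refine Finset.prod_congr rfl fun l _ => ?_
  congr 1
  unfold Pool.Agent.Y119.HY.QB
  rw [map_prod]
  refine Finset.prod_congr rfl fun j _ => ?_
  simp only [map_sub, map_pow, Polynomial.aeval_X, Polynomial.aeval_C]
  rfl

theorem J_eq {m : ℕ} (β : Fin m → ℚ) :
    J β = Pool.Agent.Y119.HY.cm (Pool.Agent.Y119.HY.Jm (2 * m) (Pool.Agent.Y119.HY.QB β)) := by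
  ext i j
  rw [Pool.Agent.Y119.HY.cm_apply]
  unfold J Pool.Agent.Y119.HY.Jm
  rw [Matrix.of_apply, Matrix.of_apply]
  split_ifs
  · rfl
  · simp

theorem Y_eq {m : ℕ} (β : Fin m → ℚ) (ξ l : ℂ) : Y β ξ l =
    Pool.Agent.Y119.HY.Hf (Pool.Agent.Y119.HY.Hc (2 * m) (Pool.Agent.Y119.HY.QB β)) (1 / ξ) *
      Pool.Agent.Y119.HY.E (Pool.Agent.Y119.HY.cm (Pool.Agent.Y119.HY.Am (2 * m))) (-l) := by
  ext i j
  unfold Y
  rw [Matrix.of_apply, Matrix.mul_apply]
  have hE : ∀ c : Fin (2 * m), Pool.Agent.Y119.HY.E (Pool.Agent.Y119.HY.cm (Pool.Agent.Y119.HY.Am (2 * m)))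
      (-l) c j = ∑ a ∈ Finset.range (2 * m), if (j : ℕ) = c + a then (-l) ^ a / (a.factorial : ℂ) else 0 := by
    intro c
    unfold Pool.Agent.Y119.HY.E
    rw [Matrix.sum_apply]
    refine Finset.sum_congr rfl fun a _ => ?_
    rw [Matrix.smul_apply, ← Pool.Agent.Y119.HY.cm_pow, Pool.Agent.Y119.HY.cm_apply, Pool.Agent.Y119.HY.Am_pow, smul_eq_mul]
    split_ifs
    · push_cast
      ring
    · simp
  simp only [hE, Finset.mul_sum]
  rw [Finset.sum_comm]
  have hsub : Finset.range ((j : ℕ) + 1) ⊆ Finset.range (2 * m) := by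
    intro a ha
    rw [Finset.mem_range] at ha ⊢
    have := j.2
    omega
  refine Finset.sum_subset_zero_on_sdiff hsub (fun a ha => ?_) fun a ha => ?_
  · rw [Finset.mem_sdiff, Finset.mem_range, Finset.mem_range] at ha
    refine Finset.sum_eq_zero fun c _ => ?_
    rw [if_neg (by omega), mul_zero]
  · rw [Finset.mem_range] at ha
    have hj := j.2
    rw [Finset.sum_eq_single (⟨(j : ℕ) - a, by omega⟩ : Fin (2 * m))]
    · rw [if_pos (by simp only; omega), mul_comm]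
      congr 1
      unfold Pool.Agent.Y119.HY.Hf Pool.Agent.Y119.HY.ps
      rw [Matrix.of_apply]
      refine tsum_congr fun k => ?_
      show _ = ((Pool.Agent.Y119.HY.hq (2 * m) (Pool.Agent.Y119.HY.QB β) k i ((j : ℕ) - a) : ℚ) : ℂ) * (1 / ξ) ^ k
      rw [frob_eq, shift_eq]
      rfl
    · intro c _ hc
      rw [if_neg, mul_zero]
      intro h
      apply hc
      apply Fin.ext
      simp only
      omega
    · intro h
      exact absurd (Finset.mem_univ _) h

theorem point_eq {k n : ℕ} (l : Fin k → ℂ) (X : Fin k → Matrix (Fin n) (Fin n) ℂ) :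
    point l X = pw (n := fun _ : Fin k => n) l X := by
  funext v
  obtain ⟨i, _ | p⟩ := v
  · rfl
  · rfl

/-- Let `β` be a finite non-empty family of rational numbers which are not integers and let `J` and `Y` be the alternating form
and the period matrix of the hypergeometric equation `(θ^(2 m) - z ∏_j (θ^2 - β_j^2)) f = 0`. Then `J` is alternating and
non-degenerate, and the matrices `Y(1 / ξ)` lie in the symplectic group `Sp(J)` for `|ξ| > 1`, for all branches.

Windows: there is `G_0` such that for all `G ≥ G_0`, all constant matrices `Ω` and all `q`, `k`, `g`, `d`, `δ`, `A` there is `E`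
such that for all `H` and all algebraic `ξ` of degree `≤ g` and of height `≤ |ξ|^A` with `|ξ| ≥ (H + 2)^E` and all
`w ∈ ℂ^q` there are at most `trdeg ℚ(2 π i, Ω) + q + 1` exceptional numbers such that all `k`-tuples of distinct fibres
`z_i = 1 / (ξ - G u_i)` with `u_i ∈ {1, …, H}` not exceptional are generic: all relations of degree `≤ δ` over number fields of
degree `≤ d` between `Ω`, `w`, the logarithms and the periods of the fibres hold for all matrices in the symplectic group.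

Almost all tuples: for all `k`, `g`, `d`, `δ`, `D` there are `c > 0` and `C` such that for every `ℚ`-space `V` of dimension
`≤ D` and all constant matrices `Ω_i` at most `C T^(-c) N^k` of the `N^k` `k`-tuples of algebraic integers of degree `≤ g` with
conjugates of size `≤ T` are exceptional. -/
theorem result {m : ℕ} (hm : 1 ≤ m) (β : Fin m → ℚ) (hβ : ∀ j, ∀ a : ℤ, β j ≠ a) :
    ((J β).transpose = -J β ∧ (J β).det ≠ 0 ∧ ∀ ξ l : ℂ, 1 < ‖ξ‖ → Complex.exp l = ξ → Y β ξ l ∈ Sp β) ∧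
    (∃ G₀ : ℕ, ∀ G : ℕ, G₀ ≤ G → ∀ (Ω : Matrix (Fin (2 * m)) (Fin (2 * m)) ℂ) (q k g d δ A : ℕ), ∃ E : ℕ,
      ∀ (H : ℕ) (ξ : ℂ), Height g A ξ → ((H : ℝ) + 2) ^ E ≤ ‖ξ‖ → ∀ w : Fin q → ℂ, ∃ S : Finset ℕ,
      (S.card : Cardinal) ≤ Algebra.trdeg ℚ (IntermediateField.adjoin ℚ (insert (2 * Real.pi * Complex.I)
        (Set.range fun p : Fin (2 * m) × Fin (2 * m) => Ω p.1 p.2))) + q + 1 ∧
      ∀ u : Fin k → ℕ, Function.Injective u → (∀ i, 1 ≤ u i ∧ u i ≤ H ∧ u i ∉ S) →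
        (∀ i, 1 < ‖ξ - G * u i‖) ∧ Generic δ d β Ω w fun i => ξ - G * u i) ∧
    (∀ k g d δ D : ℕ, 1 ≤ g → ∃ c C : ℝ, 0 < c ∧ ∀ V : Submodule ℚ ℂ, Module.Finite ℚ V → Module.finrank ℚ V ≤ D →
      ∀ (Ω : Fin k → Matrix (Fin (2 * m)) (Fin (2 * m)) ℂ) (T : ℕ), 1 ≤ T →
      (({ξ : Fin k → ℂ | (∀ i, House g T (ξ i)) ∧ Exceptional δ d V β Ω ξ}.ncard : ℕ) : ℝ) ≤
        C * (T : ℝ) ^ (-c) * (({ξ : ℂ | House g T ξ}.ncard : ℕ) : ℝ) ^ k) := by
  classical
  have hβ' : ∀ j, ∀ l : ℕ, (l : ℚ) + β j ≠ 0 ∧ (l : ℚ) + -β j ≠ 0 := by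
    intro j l
    constructor
    · intro h
      apply hβ j (-(l : ℤ))
      push_cast
      linear_combination h
    · intro h
      apply hβ j (l : ℤ)
      push_cast
      linear_combination -h
  have hQ := QD_QB hm hβ'
  have hH := fun a b => Pool.Agent.Y119.HY.sdc_hps hβ' hQ a b
  refine ⟨⟨?_, ?_, fun ξ l hξ _ => ?_⟩, ?_, ?_⟩
  · rw [J_eq]
    exact Pool.Agent.Y119.HY.Jc_skew hQ
  · rw [J_eq]
    exact Pool.Agent.Y119.HY.Jc_det hQ
  · show (Y β ξ l).transpose * J β * Y β ξ l = J β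
    rw [J_eq, Y_eq]
    have hz : ‖1 / ξ‖ < 1 := by
      rw [norm_div, norm_one, div_lt_one (by linarith)]
      exact hξ
    exact isom_mul (Pool.Agent.Y119.HA.form_c hQ hz) (Pool.Agent.Y119.HY.E_isom Pool.Agent.Y119.HY.Ac_nil
      Pool.Agent.Y119.HY.Jc_rel (-l))
  · obtain ⟨G₀, -, hW⟩ := Pool.Agent.Y119.HA.win_hyp hQ hH
    refine ⟨G₀, fun G hG Ω q k g d δ A => ?_⟩
    obtain ⟨Ex, h1⟩ := hW G hG Ω q k g d δ A
    refine ⟨Ex, fun H ξ hht hξ w => ?_⟩
    obtain ⟨S, hS, h2⟩ := h1 H ξ hξ hht w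
    refine ⟨S, hS, fun u hu hub => ?_⟩
    obtain ⟨h3, h4⟩ := h2 u hu hub
    have hcast : ∀ i, ((G * u i : ℕ) : ℂ) = G * u i := fun i => by push_cast; rfl
    simp only [hcast] at h3 h4
    refine ⟨h3, fun l hl K hKf hKd P hPd hP0 l' γ hγ => ?_⟩
    have h5 := h4 l hl K hKf hKd P hPd (by
      rw [point_eq] at hP0
      simp only [Y_eq] at hP0
      exact hP0) l' γ (fun i => by
      have h6 : (γ i).transpose * J β * γ i = J β := hγ i
      rw [J_eq] at h6
      exact h6)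
    rw [point_eq]
    exact h5
  · intro k g d δ D hg
    obtain ⟨c, hc, C, hC, h1⟩ := Pool.Agent.Y119.HA.tup_hyp hQ hH k g δ d D hg
    refine ⟨c, C, hc, fun V hV hVD Ω T hT => ?_⟩
    obtain ⟨h2, h3⟩ := h1 V hV hVD Ω T hT
    have hsub : {ξ : Fin k → ℂ | (∀ i, House g T (ξ i)) ∧ Exceptional δ d V β Ω ξ} ⊆
        {α : Fin k → ℂ | (∀ i, Pool.Agent.Y916.Sl.SInt g T (α i)) ∧
          Pool.Agent.Y119.HA.ExcH (2 * m) (Pool.Agent.Y119.HY.QB β) δ d V Ω α} := by
      rintro ξ ⟨hξ, l, hl, L, hL1, hL2, P, hPd, hPc, hP0, l', γ, hγ, hPγ⟩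
      refine ⟨fun i => hξ i, l, hl, L, hL1, hL2, P, hPd, hPc, ?_, l', γ, fun i => ?_, ?_⟩
      · rw [point_eq] at hP0
        simp only [Y_eq] at hP0
        exact hP0
      · have h6 : (γ i).transpose * J β * γ i = J β := hγ i
        rw [J_eq] at h6
        exact h6
      · rw [point_eq] at hPγ
        exact hPγ
    refine le_trans ?_ h3
    exact_mod_cast Set.ncard_le_ncard hsub h2

end Pool.Agent.Results.MP_290158_ag.HypergeometricAlgebraicPoints
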